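import Pool.Agent.Q35.CP.Gen
import Pool.Agent.Q41.AB.Fy

/-!
# The Campana-Peternell inequality on abelian covers branched along any number of hypersurfaces

Let `K` be the function field of an abelian cover of the product of the projective spaces of the
dimensions `n l`, branched along any number `N` of hypersurfaces `F c = 0` with normal crossings, of any
multidegrees `d c`: `K` is generated by the affine coordinates `x` and by roots `z j`,
`z j ^ m j = ∏ c, F c (x) ^ a j c` (by Kummer theory all abelian covers are of this form). Let `(X, D)`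
be a log smooth pair, `X` a smooth projective model of `K` such that the preimage of the hypersurfaces
`F c = 0`, `c ∈ S`, is a divisor `D` with normal crossings (with coefficients one). The case `S = ∅`,
`D = 0` is the case of the conjecture: `X` is any smooth projective model of `K`. The definitions of
covers, normal crossings and of the boundary are in `Pool.Agent.Q41.RC.Defs`.

**The theorem** (`CampanaPeternell`). Let `L` be a `ℚ`-divisor on `X` such that `B = K_X + D - L` is
pseudo-effective. Here `L P` is the coefficient of (the pull back of) `L` along the prime divisor `P`.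
Then

* `κ (L) ≤ κ (K_X + D)`, and
* even the numerical dimension satisfies `ν (L) ≤ κ (K_X + D)`: if `L` is pseudo-effective, then
  `κ (K_X + D) ≥ 0`, and `h⁰ (m L + A) ≤ C m ^ κ` for `κ = κ (K_X + D)` and all divisors `A`.

A `ℚ`-divisor `B` is pseudo-effective if and only if there is a divisor `A` such that `m B + A` has a
nonzero section for all `m ≥ 1` (Nakayama). This is the definition used for `L` and `K_X + D - L`.

Proof: the products of the sections of `m L + A'` with a section of `m (K_X + D - L) + A` are sections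
of `m (K_X + D) + A + A'`. The number of these is at most `C m ^ κ` since `κ (K_X + D)` and
`ν (K_X + D)` are equal (`MP_97d78d_ag.KodairaNumerical`, which is proved by bend and break for forms
along the strata of the hypersurfaces).
-/

set_option autoImplicit false

open FF MvPolynomial Pool.Agent.W602.GT Pool.Agent.Q41.RC.Def

namespace Pool.Agent.Results.MP_370cf3_ag.ArbitraryBranchLoci

section sections

/-- `ω` is a section of `m (K + Δ) + A`: a rational section of the `m`-th power of the canonical
bundle (`IsPluri`: a function of `w` rational vector fields which is multiplied by `det B ^ m` under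
a linear substitution `B`) whose order on the vector fields which are regular at `P` is at least the
order of one of the functions in `S`, minus `m` times the coefficient `δ P` of `Δ`, for all prime
divisors `P` (all divisorial places `P` of `K`). Here `A` is the divisor which is generated by the
finite set `S` of functions; `A = 0` if `S = {1}`. -/
def IsSection {K : Type} [Field K] [Algebra ℂ K] (w : ℕ) (δ : Place ℂ K → ℚ) (S : Finset K)
    (m : ℕ) (ω : (Fin w → Derivation ℂ K K) → K) : Prop :=
  IsPluri m ω ∧ ∀ P : Place ℂ K, Divisorial w P → ∀ D : Fin w → Derivation ℂ K K,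
    (∀ c, DerReg P (D c)) → ω D = 0 ∨ ∃ s ∈ S, s ≠ 0 ∧
      (P.ord s : ℚ) - m * δ P ≤ P.ord (ω D)

/-- `f` is a section of `m L + A`. -/
def IsFunctionSection {K : Type} [Field K] [Algebra ℂ K] (w : ℕ) (L : Place ℂ K → ℚ)
    (S : Finset K) (m : ℕ) (f : K) : Prop :=
  ∀ P : Place ℂ K, Divisorial w P → f = 0 ∨ ∃ s ∈ S, s ≠ 0 ∧ (P.ord s : ℚ) - m * L P ≤ P.ord f

variable (w : ℕ) {K : Type} [Field K] [Algebra ℂ K]

/-- `κ (K + Δ) ≥ h`: for some `m > 0` there are sections of `m (K + Δ)` whose ratios contain `h`
algebraically independent functions (for `h = 0`: there is a nonzero section). -/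
def KodairaGe (δ : Place ℂ K → ℚ) (h : ℕ) : Prop :=
  ∃ m : ℕ, 0 < m ∧ ∃ ω : Fin (h + 1) → (Fin w → Derivation ℂ K K) → K,
    (∀ b, IsSection w δ {1} m (ω b)) ∧
    ∃ D, ω 0 D ≠ 0 ∧ AlgebraicIndependent ℂ (fun b : Fin h => ω b.succ D / ω 0 D)

/-- `κ (L) ≥ h`. -/
def IitakaGe (L : Place ℂ K → ℚ) (h : ℕ) : Prop :=
  ∃ m : ℕ, 0 < m ∧ ∃ f : Fin (h + 1) → K, f 0 ≠ 0 ∧
    AlgebraicIndependent ℂ (fun b : Fin h => f b.succ / f 0) ∧
    ∀ b, IsFunctionSection w L {1} m (f b)

/-- `L` is pseudo-effective: there is a divisor `A` such that all `m L + A` have a nonzero section. -/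
def Pseudoeffective (L : Place ℂ K → ℚ) : Prop :=
  ∃ S : Finset K, ∀ m : ℕ, ∃ f : K, f ≠ 0 ∧ IsFunctionSection w L S m f

/-- `ν (L) ≤ h`: for every divisor `A` there is a constant `C` such that `h⁰ (m L + A) ≤ C m ^ h` for
all `m ≥ 1`. -/
def NumericalLe (L : Place ℂ K → ℚ) (h : ℕ) : Prop :=
  ∀ S : Finset K, ∃ C : ℕ, ∀ m M : ℕ, 1 ≤ m →
    (∃ f : Fin M → K, LinearIndependent ℂ f ∧ ∀ l, IsFunctionSection w L S m (f l)) →
      M ≤ C * m ^ h

/-- `K + Δ - L` is pseudo-effective: there is a divisor `A` such that all `m (K + Δ - L) + A` have a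
nonzero section. -/
def RestPseudoeffective (δ L : Place ℂ K → ℚ) : Prop :=
  ∃ S : Finset K, ∀ m : ℕ, ∃ ω : (Fin w → Derivation ℂ K K) → K, ω ≠ 0 ∧
    IsSection w (fun P => δ P - L P) S m ω

/-- The Campana-Peternell inequality `ν (L) ≤ κ (K + Δ)` for all `L` with `K + Δ - L`
pseudo-effective. -/
def CampanaPeternell (δ : Place ℂ K → ℚ) : Prop :=
  ∀ L : Place ℂ K → ℚ, RestPseudoeffective w δ L →
    (∀ h, IitakaGe w L h → KodairaGe w δ h) ∧
    (Pseudoeffective w L → ∃ κ, KodairaGe w δ κ ∧ NumericalLe w L κ)

end sections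

open scoped Classical in
/-- The coefficients of the boundary: `1` for the prime divisors over the hypersurfaces `F c = 0`,
`c ∈ S`, and `0` for the others. -/
noncomputable def coefficient {r N : ℕ} {n : Fin r → ℕ} (d : Fin N → Fin r → ℕ)
    (F : Fin N → MvPolynomial (Coord n) ℂ) (S : Set (Fin N)) {K : Type} [Field K] [Algebra ℂ K]
    (x : Coord n → K) (P : Place ℂ K) : ℚ :=
  if Boundary d F S x P then 1 else 0

theorem isSection_eq {K : Type} [Field K] [Algebra ℂ K] (w : ℕ) (δ : Place ℂ K → ℚ)
    (S : Finset K) (m : ℕ) (ω : (Fin w → Derivation ℂ K K) → K) :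
    IsSection w δ S m ω ↔ Pool.Agent.Q57.TP.BSec w δ S m 1 ω := by
  unfold IsSection Pool.Agent.Q57.TP.BSec
  simp only [Nat.cast_one, one_mul]

theorem cp_iff {K : Type} [Field K] [Algebra ℂ K] {w : ℕ} {δ : Place ℂ K → ℚ}
    (hab : Pool.Agent.Q57.TP.BPsef w δ →
      ∃ κ, Pool.Agent.Q57.TP.BKod w δ κ ∧ Pool.Agent.Q57.TP.BNum w δ κ) :
    CampanaPeternell w δ := by
  intro L hL
  have hR : Pool.Agent.Q35.CP.Rest w δ L := by
    obtain ⟨S, hS⟩ := hL
    refine ⟨S, fun M => ?_⟩
    obtain ⟨ω, h0, h1⟩ := hS M
    exact ⟨ω, h0, (isSection_eq _ _ _ _ _).1 h1⟩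
  have hk : ∀ h, Pool.Agent.Q57.TP.BKod w δ h → KodairaGe w δ h := by
    rintro h ⟨m, hm, ω, hω, hD⟩
    exact ⟨m, hm, ω, fun b => (isSection_eq _ _ _ _ _).2 (hω b), hD⟩
  obtain ⟨h1, h2⟩ := Pool.Agent.Q35.CP.cp hab hR
  refine ⟨fun h hh => hk h (h1 h hh), fun hp => ?_⟩
  obtain ⟨κ, h3, h4⟩ := h2 hp
  exact ⟨κ, hk κ h3, h4⟩

/-- **The Campana-Peternell inequality.** Let `K` be the function field of an abelian cover of the
product of the projective spaces of the dimensions `n l`, `l < r`, branched at most along the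
hypersurfaces `F c = 0`, `c < N`, of the multidegrees `d c`, which have normal crossings, and let
`(X, D)` be a log smooth model of `K` such that `D` is the preimage of the hypersurfaces `F c = 0` with
`c ∈ S` (`D = 0` if `S` is empty). If `K_X + D - L` is pseudo-effective, then `κ (L) ≤ κ (K_X + D)`, and
even `ν (L) ≤ κ (K_X + D)` if `L` is pseudo-effective. -/
theorem result {r N R : ℕ} (hr : 0 < r) {n : Fin r → ℕ} {d : Fin N → Fin r → ℕ}
    {F : Fin N → MvPolynomial (Coord n) ℂ} {m : Fin R → ℕ} {a : Fin R → Fin N → ℕ} {K : Type}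
    [Field K] [Algebra ℂ K] {x : Coord n → K} {z : Fin R → K} (h : IsCover d F m a x z)
    (hF : NormalCrossings F) (S : Set (Fin N)) :
    CampanaPeternell (∑ l, n l) (coefficient d F S x) :=
  cp_iff (Pool.Agent.Q41.AB.final_ab h hF hr (fun _ hP => if_pos hP) (fun _ hP => if_neg hP))

end Pool.Agent.Results.MP_370cf3_ag.ArbitraryBranchLoci
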