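import Pool.Agent.Q36.GV.Yc
import Pool.Agent.W619.TW.CP
import Pool.Agent.W327.PG.TRGE3

/-!
# The Campana-Peternell conjecture for varieties dominated by products of a variety and curves

Let `Y` be a projective manifold of dimension `d` which is uniruled, or satisfies `ν(Y) = a` where `a`
is the dimension of the image of its canonical map (for instance an abelian variety or a variety with
trivial canonical bundle, `a = 0`, or a variety of general type with generically finite canonical
map, `a = d`). Let `C 1, ..., C n` be arbitrary curves, rational ones included, and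
`Y × C 1 × ... × C n ⇢ X` any dominant rational map of finite degree to a projective manifold `X` (not
necessarily a quotient by a group). For a general point `x` of `X` let `r_i` be the number of
different `i`-th coordinates of the points over `x` (`i = 0` is the coordinate in `Y`), and for a set
`Q` of indices let `r(Q)` be the number of the points over `x` which have the same `j`-th
coordinates as a given one of them for all `j` outside `Q`. Let `c i + 2` be at most the gonality of
`C i` if `C i` is not rational, and `c 0 = 0`, or more generally let the canonical forms of `Y`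
separate `c 0 + 1` points and tangent vectors in an open set. Assume that

* `2 r_i ≤ c i + 1` for all `i` in some set `B` (which may be empty), and
* for all `Q` disjoint from `B` the points over `x` are determined by their coordinates outside `Q`
  (`r(Q) = 1`), or `2 r(Q) - 1 ≤ ∑ j ∈ Q, c j`.

The theorem is the conjecture of Campana and Peternell for `X`: if `r K_X - A` is pseudo-effective for
some `r ≥ 1` and a divisor `A`, then `κ(X) ≥ κ(A)`.

Proof. If `Y` is uniruled or some `C i` is rational, then `K_X` has numerical dimension `-∞`, and no
such `A` with `κ(A) ≥ 0` exists. Otherwise `κ(X) = ν(X)`: exterior products of canonical forms of `Y`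
and regular differentials `f i` of the curves are canonical forms of the product, and their traces
are canonical forms `G_f` on `X`. If a vector field of `X` kills all their quotients, there is a
relation between the values and the derivatives of the `f i` at the points of a general fibre. Hall's
theorem on the marriage problem and the separation properties of the canonical forms of the factors
are used to isolate one point of the fibre and one factor in this relation. For the upper bound
sections on the product of multiples of its canonical class plus an ample divisor are expanded along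
the curves. Sections of `j A` times sections of `j (r K_X - A) + H` are sections of `j r K_X + H`.
-/

set_option autoImplicit false
set_option linter.overlappingInstances false

open FF IntermediateField Pool.Agent.W619.PQ Pool.Agent.W619.TW

namespace Pool.Agent.Results.MP_370cf3_ag.DominatedByProducts

/-- Every nonconstant function on the curve with function field `F` has degree at least `γ`. -/
def GonalityGe (F : Type) [Field F] [Algebra ℂ F] (γ : ℕ) : Prop :=
  ∀ b : F, Transcendental ℂ b → γ ≤ Module.finrank ℂ⟮b⟯ F

/-- The image of the map given by the sections of `m K_X` has dimension at least `h`: there are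
`h + 1` sections of `m K_X` whose ratios to the first one are algebraically independent. -/
def ImageGe (K : Type) [Field K] [Algebra ℂ K] (n m h : ℕ) : Prop :=
  ∃ ω : Fin (h + 1) → (Fin n → Derivation ℂ K K) → K,
    (∀ l, IsSec ℂ K n (fun _ => False) {1} m 0 (ω l)) ∧
    ∃ D, (∀ l, ω l D ≠ 0) ∧ AlgebraicIndependent ℂ (fun l : Fin h => ω l.succ D / ω 0 D)

/-- The coefficients of the canonical forms of the projective manifold of dimension `d` with function
field `K`, with respect to the rational vector fields `E`. -/
def canonicalForms {K : Type} [Field K] [Algebra ℂ K] (d : ℕ) (E : Fin d → Derivation ℂ K K) :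
    Set K :=
  {f | ∃ η : (Fin d → Derivation ℂ K K) → K, IsPluriForm ℂ K d 1 η ∧
    (∀ u : Place ℂ K, IsDivisorial u d → RegularAt u d η) ∧ η E = f}

/-- The canonical forms of the manifold with function field `K` separate `m` points and tangent
vectors in an open set: let `φ i` be different generic points, with coordinates in a field `Ω`, with
multiplicities `1` or `2` of sum at most `m`, and `θ i` tangent vectors at the points of multiplicity
`2`; then the values at the `φ i` are linearly independent of each other and of the derivatives in
the directions `θ i ≠ 0`. (For the coefficients with respect to a frame `E`; this does not depend on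
the choice of the frame.) -/
def Separates (K : Type) [Field K] [Algebra ℂ K] (d m : ℕ) : Prop :=
  ∀ (y : Fin d → K) (E : Fin d → Derivation ℂ K K), IsTranscendenceBasis ℂ y →
    (∀ i j, E i (y j) = if i = j then 1 else 0) →
    ∀ (Ω : Type) [Field Ω] [Algebra ℂ Ω] (ι : Type) [Fintype ι] (φ : ι → (K →ₐ[ℂ] Ω)) (μ : ι → ℕ)
      (c : ι → Ω) (θ : ι → (K →ₗ[ℂ] Ω)), Function.Injective φ → (∀ i, μ i = 1 ∨ μ i = 2) →
      ∑ i, μ i ≤ m → (∀ i, ∀ a b, θ i (a * b) = φ i a * θ i b + φ i b * θ i a) →
      (∀ i, μ i = 1 → θ i = 0) →
      (∀ f ∈ canonicalForms d E, ∑ i, (c i * φ i f + θ i f) = 0) → ∀ i, c i = 0 ∧ θ i = 0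

section

variable (L : Type) {M : Type} [Field L] [Field M] [Algebra ℂ L] [Algebra ℂ M] [Algebra L M]

/-- The number of different coordinates in the factor with function field `F` on a general fibre of
`Z ⇢ X`: the degree over `X` of the image of `Z` in the product of `X` and the factor. -/
noncomputable def coordinates (F : IntermediateField ℂ M) : ℕ :=
  Module.finrank L (IntermediateField.adjoin L (F : Set M))

/-- The number of the points of a general fibre of `Z ⇢ X` with the same coordinates outside `Q` as a
given one: the degree of `Z` over its image in the product of `X` and the factors `j ∉ Q`. -/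
noncomputable def agreeing {n : ℕ} (F : Fin n → IntermediateField ℂ M) (Q : Finset (Fin n)) : ℕ :=
  Module.finrank (IntermediateField.adjoin L {z : M | ∃ j, j ∉ Q ∧ z ∈ F j}) M

end

/-- **The conjecture of Campana and Peternell for varieties dominated by products.** Let `F 0` be the
function field of a projective manifold `Y` of dimension `d` which is uniruled, or whose canonical map
has an image of dimension at least `a` while `ν(Y) ≤ a`; `c 0 = 0` or the canonical forms of `Y`
separate `c 0 + 1` points and tangent vectors. Let `F i` (`0 < i ≤ n`) be the function fields of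
curves which are rational or of gonality at least `c i + 2`, `M` the function field of the product,
and `Y × C 1 × ... × C n ⇢ X` a dominant rational map of finite degree to a projective manifold with
function field `L`. Let `B` be a set of indices such that twice the number of the `i`-th coordinates
on a general fibre is at most `c i + 1` for `i ∈ B`, and assume that for every set `Q` of indices
disjoint from `B` the number `r(Q)` of the points of a general fibre with the same coordinates outside
`Q` as a given one satisfies `r(Q) = 1` or `2 r(Q) - 1 ≤ ∑ j ∈ Q, c j`. If `r K_X - A` is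
pseudo-effective, `r ≥ 1`, for a divisor `A` with multiplicities `α v`, and `κ(A) ≥ j`, then
`κ(X) ≥ j`. -/
theorem result {L M : Type} [Field L] [Field M] [Algebra ℂ L] [Algebra ℂ M] [Algebra L M]
    [IsScalarTower ℂ L M] [FiniteDimensional L M] [Algebra.EssFiniteType ℂ L] (d n : ℕ)
    (hM : Algebra.trdeg ℂ M = (d + n : ℕ)) (F : Fin (n + 1) → IntermediateField ℂ M)
    (hess : Algebra.EssFiniteType ℂ (F 0)) (hY : Algebra.trdeg ℂ (F 0) = d)
    (hF : ∀ i : Fin n, IsFF ℂ (F i.succ)) (hsup : ⨆ i, F i = ⊤) (a : ℕ)
    (ha : IsUniruled ℂ (F 0) d ∨ (ImageGe (F 0) d 1 a ∧ NumLe ℂ (F 0) d (fun _ => False) a))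
    (c : Fin (n + 1) → ℕ) (hc : c 0 = 0 ∨ Separates (F 0) d (c 0 + 1))
    (hγ : ∀ i : Fin n, (∃ t : F i.succ, ℂ⟮t⟯ = ⊤) ∨ GonalityGe (F i.succ) (c i.succ + 2))
    (B : Finset (Fin (n + 1))) (hB : ∀ i ∈ B, 2 * coordinates L (F i) ≤ c i + 1)
    (hQ : ∀ Q : Finset (Fin (n + 1)), Disjoint Q B →
      agreeing L F Q = 1 ∨ 2 * agreeing L F Q ≤ 1 + ∑ j ∈ Q, c j)
    (r : ℕ) (hr : 1 ≤ r) (α : Place ℂ L → ℤ)
    (hps : IsPsefRest ℂ L (d + n) (fun _ => False) r α) (j : ℕ) (hA : DivKodGe ℂ L (d + n) α j) :
    KodGe ℂ L (d + n) (fun _ => False) j := by
  have hessM : Algebra.EssFiniteType ℂ M := Q36.GV.ess_supS F hsup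
  have hn : Algebra.trdeg ℂ L = (d + n : ℕ) := Q36.SD.trdeg_below (K := M) hM
  by_cases h1 : IsUniruled ℂ (F 0) d ∨ ∃ i : Fin n, ∃ t : F i.succ, ℂ⟮t⟯ = ⊤
  · have h2 := Q36.GV.uniruled_prod (L := L) F hY hM hsup h1
    exact absurd hA (cp_of_neg (Pool.Agent.W619.Y.uniruled_neg (d + n) hn h2).2 hr hps)
  · push Not at h1
    obtain ⟨ha1, ha2⟩ := ha.resolve_left h1.1
    have hγ' : ∀ i : Fin n, GonalityGe (F i.succ) (c i.succ + 2) := fun i =>
      (hγ i).resolve_left fun ⟨t, ht⟩ => h1.2 i t ht
    have hirr : ∀ i : Fin n, ¬ ∃ t : F i.succ, ℂ⟮t⟯ = ⊤ := fun i ⟨t, ht⟩ => h1.2 i t ht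
    obtain ⟨ω, h5, D, h6, h7⟩ :=
      Q36.GV.imageYC F hY hM (Q36.GV.alg_of_sup' F hsup) hc ha1 hγ' B hB hQ
    have h4 := Q36.GV.numYC (L := L) F hY hM hsup hirr ha2
    have h3 : KodGe ℂ L (d + n) (fun _ => False)
        (a + {i : Fin n | ¬ IsElliptic (F i.succ)}.ncard) :=
      Pool.Agent.W327.PG.TRGE3.main ℂ L (d + n) _ _ hn ⟨1, le_rfl, ω, h5, D, h6, h7⟩
    exact cp_of_num h3 h4 hr hps hA

end Pool.Agent.Results.MP_370cf3_ag.DominatedByProducts
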