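import Pool.Agent.Q35.CP.Gen
import Pool.Agent.Q57.TQ.Mak

/-!
# The Campana-Peternell inequality on covers branched along hypersurfaces of any degrees

**The varieties.** (A) Let `F k`, `k = 0, ..., n`, be forms of degrees `d k` in `n + 1` variables
whose zero sets in the projective `n`-space are smooth hypersurfaces with normal crossings, and `K`
the function field of an abelian cover of the projective space which is branched only along these
hypersurfaces: `K` is generated by the affine coordinates and by roots `z j`,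
`z j ^ (m j) = ∏ k, (F k (x) / x 0 ^ (d k)) ^ (a j k)`, where `m j` divides `∑ k, a j k * d k`. (For
`n ≥ 2` all finite covers which are branched only along these hypersurfaces are abelian; covers
which are branched along fewer hypersurfaces are included: add general hyperplanes, `a j k = 0`.)

(B) Let `F i` be a form of degree `d i` in `n i + 1` variables with a smooth zero set in the
projective `n i`-space, `i < r`, and `K` the function field of an abelian cover of the product of the
projective `n i`-spaces which is branched only along the hypersurfaces `F i = 0`: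
`z j ^ (m j) = ∏ i, (F i (x i) / x i 0 ^ (d i)) ^ (a j i)`, where `m j` divides `a j i * d i`. Equivalently, `K`
is the function field of a quotient of a product of cyclic hypersurfaces `w ^ (d i) = F i` by a group
of diagonal automorphisms.

A prime divisor `P` over the cover (a divisorial place of `K`) has the vector `multiplicities F d x P`
of the multiplicities `v k` of the hypersurfaces along `P`. The vectors `v` of nonnegative integers
which occur are the `Admissible` ones.

**The pairs.** The boundary `Δ` is given by a function `c ≤ 1` on the vectors: `- c v` is the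
discrepancy of the pair `(X, Δ)` along the divisors with the vector `v`, and sections of `m (K + Δ)`
are the rational `m`-canonical forms whose order along every prime divisor `P` is at least
`- m c (v)`. The function `c = 0` gives the canonical divisor `K_X` of any smooth model `X` of the
cover (`Δ = 0`), the case of the conjecture. Other examples are the toroidal modifications `X` of the
cover, given by a subdivision of the fan of the faces of the positive orthant, with any divisor
`Δ = ∑ δ_ρ D_ρ` supported over the hypersurfaces with rational coefficients `0 ≤ δ_ρ ≤ 1` (log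
canonical pairs; the function `1 - c` is linear on the cones and `1 - δ_ρ` at the ray `ρ`).

**The theorem** (`CampanaPeternell`). Let `L` be a `ℚ`-divisor on `X` such that `B = K_X + Δ - L` is
pseudo-effective. Here `L P` is the coefficient of (the pull back of) `L` along the prime divisor `P`.
Then

* `κ (L) ≤ κ (K_X + Δ)`, and
* even the numerical dimension satisfies `ν (L) ≤ κ (K_X + Δ)`: if `L` is pseudo-effective, then
  `κ (K_X + Δ) ≥ 0`, and `h⁰ (m L + A) ≤ C m ^ κ` for `κ = κ (K_X + Δ)` and all divisors `A`.

A `ℚ`-divisor `B` is pseudo-effective if and only if there is a divisor `A` such that `m B + A` has a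
nonzero section for all `m ≥ 1` (Nakayama). This is the definition used for `L` and `K_X + Δ - L`.

Proof: the products of the sections of `m L + A'` with a section of `m (K_X + Δ - L) + A` are sections
of `m (K_X + Δ) + A + A'`. The number of these is at most `C m ^ κ` since `κ (K_X + Δ)` and
`ν (K_X + Δ)` are equal (`Pool.Agent.Q57.TP.main_d`, `Pool.Agent.Q57.TQ.main_d` of
`MP_2c56d9_ag.NormalCrossingPairs` and `MP_bc213e_ag.HypersurfaceQuotientPairs`).
-/

set_option autoImplicit false

open FF MvPolynomial Pool.Agent.W602.GT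

namespace Pool.Agent.Results.MP_370cf3_ag.NormalCrossingCovers

section sections

/-- `ω` is a section of `m (K + Δ) + A`: a rational section of the `m`-th power of the canonical
bundle (`IsPluri`: a function of `N` rational vector fields which is multiplied by `det B ^ m` under
a linear substitution `B`) whose order on the vector fields which are regular at `P` is at least the
order of one of the functions in `S`, minus `m` times the coefficient `δ P` of `Δ`, for all prime
divisors `P` (all divisorial places `P` of `K`). Here `A` is the divisor which is generated by the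
finite set `S` of functions; `A = 0` if `S = {1}`. -/
def IsSection {K : Type} [Field K] [Algebra ℂ K] (N : ℕ) (δ : Place ℂ K → ℚ) (S : Finset K)
    (m : ℕ) (ω : (Fin N → Derivation ℂ K K) → K) : Prop :=
  IsPluri m ω ∧ ∀ P : Place ℂ K, Divisorial N P → ∀ D : Fin N → Derivation ℂ K K,
    (∀ c, DerReg P (D c)) → ω D = 0 ∨ ∃ s ∈ S, s ≠ 0 ∧
      (P.ord s : ℚ) - m * δ P ≤ P.ord (ω D)

/-- `f` is a section of `m L + A`. -/
def IsFunctionSection {K : Type} [Field K] [Algebra ℂ K] (N : ℕ) (L : Place ℂ K → ℚ)
    (S : Finset K) (m : ℕ) (f : K) : Prop :=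
  ∀ P : Place ℂ K, Divisorial N P → f = 0 ∨ ∃ s ∈ S, s ≠ 0 ∧ (P.ord s : ℚ) - m * L P ≤ P.ord f

variable (N : ℕ) {K : Type} [Field K] [Algebra ℂ K]

/-- `κ (K + Δ) ≥ h`: for some `m > 0` there are sections of `m (K + Δ)` whose ratios contain `h`
algebraically independent functions (for `h = 0`: there is a nonzero section). -/
def KodairaGe (δ : Place ℂ K → ℚ) (h : ℕ) : Prop :=
  ∃ m : ℕ, 0 < m ∧ ∃ ω : Fin (h + 1) → (Fin N → Derivation ℂ K K) → K,
    (∀ b, IsSection N δ {1} m (ω b)) ∧
    ∃ D, ω 0 D ≠ 0 ∧ AlgebraicIndependent ℂ (fun b : Fin h => ω b.succ D / ω 0 D)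

/-- `κ (L) ≥ h`. -/
def IitakaGe (L : Place ℂ K → ℚ) (h : ℕ) : Prop :=
  ∃ m : ℕ, 0 < m ∧ ∃ f : Fin (h + 1) → K, f 0 ≠ 0 ∧
    AlgebraicIndependent ℂ (fun b : Fin h => f b.succ / f 0) ∧
    ∀ b, IsFunctionSection N L {1} m (f b)

/-- `L` is pseudo-effective: there is a divisor `A` such that all `m L + A` have a nonzero section. -/
def Pseudoeffective (L : Place ℂ K → ℚ) : Prop :=
  ∃ S : Finset K, ∀ m : ℕ, ∃ f : K, f ≠ 0 ∧ IsFunctionSection N L S m f

/-- `ν (L) ≤ h`: for every divisor `A` there is a constant `C` such that `h⁰ (m L + A) ≤ C m ^ h` for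
all `m ≥ 1`. -/
def NumericalLe (L : Place ℂ K → ℚ) (h : ℕ) : Prop :=
  ∀ S : Finset K, ∃ C : ℕ, ∀ m M : ℕ, 1 ≤ m →
    (∃ f : Fin M → K, LinearIndependent ℂ f ∧ ∀ l, IsFunctionSection N L S m (f l)) →
      M ≤ C * m ^ h

/-- `K + Δ - L` is pseudo-effective: there is a divisor `A` such that all `m (K + Δ - L) + A` have a
nonzero section. -/
def RestPseudoeffective (δ L : Place ℂ K → ℚ) : Prop :=
  ∃ S : Finset K, ∀ m : ℕ, ∃ ω : (Fin N → Derivation ℂ K K) → K, ω ≠ 0 ∧
    IsSection N (fun P => δ P - L P) S m ω

/-- The Campana-Peternell inequality `ν (L) ≤ κ (K + Δ)` for all `L` with `K + Δ - L`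
pseudo-effective. -/
def CampanaPeternell (δ : Place ℂ K → ℚ) : Prop :=
  ∀ L : Place ℂ K → ℚ, RestPseudoeffective N δ L →
    (∀ h, IitakaGe N L h → KodairaGe N δ h) ∧
    (Pseudoeffective N L → ∃ κ, KodairaGe N δ κ ∧ NumericalLe N L κ)

end sections

/-! ### Covers of the projective space -/

section A

/-- The hypersurfaces `F k = 0` have normal crossings: at every point of the projective space the
gradients of the forms `F k` which vanish at this point are linearly independent. -/
def NormalCrossings {n : ℕ} (F : Fin (n + 1) → MvPolynomial (Fin (n + 1)) ℂ) : Prop :=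
  ∀ x : Fin (n + 1) → ℂ, x ≠ 0 → LinearIndependent ℂ
    fun (k : {k // eval x (F k) = 0}) (l : Fin (n + 1)) => eval x (pderiv l (F k.1))

variable {n R : ℕ}

/-- The multiplicities which satisfy the divisibility conditions. -/
def Admissible (m : Fin R → ℕ) (a : Fin R → Fin (n + 1) → ℕ) (v : Fin (n + 1) → ℕ) : Prop :=
  v ≠ 0 ∧ (∃ k, v k = 0) ∧ ∀ j, m j ∣ ∑ k, a j k * v k

/-- The function `c` is the function of the coefficients of a boundary: it is at most one (the pair
is log canonical), the boundary is supported over the hypersurfaces, the log discrepancy `1 - c` is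
at most homogeneous along the rays, and for a finite set `T` of vectors every admissible vector is at
least a nonnegative combination of the vectors in `T`, such that `1 - c` is at most the combination
of the values (`c = 0` is such a function). -/
structure IsBoundary (m : Fin R → ℕ) (a : Fin R → Fin (n + 1) → ℕ)
    (c : (Fin (n + 1) → ℕ) → ℚ) : Prop where
  zero : c 0 = 0
  le_one : ∀ v, c v ≤ 1
  ray : ∀ v (r : ℕ), 1 ≤ r → Admissible m a v → 1 - c (r • v) ≤ r * (1 - c v)
  finite : ∃ T : Finset (Fin (n + 1) → ℕ), (∀ s ∈ T, Admissible m a s) ∧ ∀ v, Admissible m a v →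
    ∃ w : (Fin (n + 1) → ℕ) → ℚ, (∀ s, 0 ≤ w s) ∧ (∀ k, ∑ s ∈ T, w s * s k ≤ v k) ∧
      1 - c v ≤ ∑ s ∈ T, w s * (1 - c s)

variable {K : Type} [Field K] [Algebra ℂ K]

/-- The multiplicities of the hypersurfaces `F k = 0` along the prime divisor `P`; the `x j` are the
homogeneous coordinates, which are divided by one of minimal order at `P`. -/
noncomputable def multiplicities (F : Fin (n + 1) → MvPolynomial (Fin (n + 1)) ℂ)
    (d : Fin (n + 1) → ℕ) (x : Fin (n + 1) → K) (P : Place ℂ K) (k : Fin (n + 1)) : ℕ :=
  (P.ord (aeval x (F k)) -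
    d k * Finset.univ.inf' Finset.univ_nonempty fun j => P.ord (x j)).toNat

/-- `K` is the function field of an abelian cover of the projective `n`-space which is branched only
along the hypersurfaces `F k = 0` of degrees `d k` with normal crossings. -/
structure IsCover (d : Fin (n + 1) → ℕ) (F : Fin (n + 1) → MvPolynomial (Fin (n + 1)) ℂ)
    (m : Fin R → ℕ) (a : Fin R → Fin (n + 1) → ℕ) (x : Fin (n + 1) → K) (z : Fin R → K) :
    Prop where
  dim : 1 ≤ n
  degree : ∀ k, 1 ≤ d k
  form : ∀ k, (F k).IsHomogeneous (d k)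
  crossings : NormalCrossings F
  exponent : ∀ j, 1 ≤ m j
  divides : ∀ j, m j ∣ ∑ k, a j k * d k
  ne_zero : x 0 ≠ 0
  basis : IsTranscendenceBasis ℂ fun b : Fin n => x b.succ / x 0
  root : ∀ j, z j ^ m j = ∏ k, (aeval x (F k) / x 0 ^ d k) ^ a j k
  generates : IntermediateField.adjoin ℂ
    (Set.range (fun b : Fin n => x b.succ / x 0) ∪ Set.range z) = ⊤

end A

/-! ### Covers of products of projective spaces -/

namespace Product

/-- The form `F` has no singular zeros: its partial derivatives have no common zero but `0`. -/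
def Smooth {n : ℕ} (F : MvPolynomial (Fin (n + 1)) ℂ) : Prop :=
  ∀ x : Fin (n + 1) → ℂ, x ≠ 0 → ∃ l, eval x (pderiv l F) ≠ 0

/-- The affine coordinates of the product of the projective spaces. -/
noncomputable def affine {r : ℕ} {n : Fin r → ℕ} {K : Type} [Field K]
    (x : ∀ i, Fin (n i + 1) → K) (b : (i : Fin r) × Fin (n i)) : K :=
  x b.1 b.2.succ / x b.1 0

variable {r R : ℕ}

/-- The multiplicities which satisfy the divisibility conditions. -/
def Admissible (m : Fin R → ℕ) (a : Fin R → Fin r → ℕ) (v : Fin r → ℕ) : Prop :=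
  v ≠ 0 ∧ ∀ j, m j ∣ ∑ i, a j i * v i

/-- The function `c` is the function of the coefficients of a boundary, as above. -/
structure IsBoundary (m : Fin R → ℕ) (a : Fin R → Fin r → ℕ) (c : (Fin r → ℕ) → ℚ) : Prop where
  zero : c 0 = 0
  le_one : ∀ v, c v ≤ 1
  ray : ∀ v (k : ℕ), 1 ≤ k → Admissible m a v → 1 - c (k • v) ≤ k * (1 - c v)
  finite : ∃ T : Finset (Fin r → ℕ), (∀ s ∈ T, Admissible m a s) ∧ ∀ v, Admissible m a v →
    ∃ w : (Fin r → ℕ) → ℚ, (∀ s, 0 ≤ w s) ∧ (∀ k, ∑ s ∈ T, w s * s k ≤ v k) ∧
      1 - c v ≤ ∑ s ∈ T, w s * (1 - c s)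

variable {K : Type} [Field K] [Algebra ℂ K] {n : Fin r → ℕ}

/-- The multiplicities of the hypersurfaces `F i = 0` along the prime divisor `P`; the `x i j` are the
homogeneous coordinates of the `i`-th factor, which are divided by one of minimal order at `P`. -/
noncomputable def multiplicities (F : ∀ i, MvPolynomial (Fin (n i + 1)) ℂ) (d : Fin r → ℕ)
    (x : ∀ i, Fin (n i + 1) → K) (P : Place ℂ K) (i : Fin r) : ℕ :=
  (P.ord (aeval (x i) (F i)) -
    d i * Finset.univ.inf' Finset.univ_nonempty fun j => P.ord (x i j)).toNat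

/-- `K` is the function field of an abelian cover of the product of the projective `n i`-spaces which
is branched only along the smooth hypersurfaces `F i = 0` of degrees `d i`. -/
structure IsCover (d : Fin r → ℕ) (F : ∀ i, MvPolynomial (Fin (n i + 1)) ℂ)
    (m : Fin R → ℕ) (a : Fin R → Fin r → ℕ) (x : ∀ i, Fin (n i + 1) → K) (z : Fin R → K) :
    Prop where
  factors : 1 ≤ r
  dim : ∀ i, 1 ≤ n i
  degree : ∀ i, 1 ≤ d i
  form : ∀ i, (F i).IsHomogeneous (d i)
  smooth : ∀ i, Smooth (F i)
  exponent : ∀ j, 1 ≤ m j
  divides : ∀ j i, m j ∣ a j i * d i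
  ne_zero : ∀ i, x i 0 ≠ 0
  basis : IsTranscendenceBasis ℂ (affine x)
  root : ∀ j, z j ^ m j = ∏ i, (aeval (x i) (F i) / x i 0 ^ d i) ^ a j i
  generates : IntermediateField.adjoin ℂ (Set.range (affine x) ∪ Set.range z) = ⊤

end Product

theorem isSection_eq {K : Type} [Field K] [Algebra ℂ K] (N : ℕ) (δ : Place ℂ K → ℚ)
    (S : Finset K) (m : ℕ) (ω : (Fin N → Derivation ℂ K K) → K) :
    IsSection N δ S m ω ↔ Pool.Agent.Q57.TP.BSec N δ S m 1 ω := by
  unfold IsSection Pool.Agent.Q57.TP.BSec
  simp only [Nat.cast_one, one_mul]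

theorem cp_iff {K : Type} [Field K] [Algebra ℂ K] {N : ℕ} {δ : Place ℂ K → ℚ}
    (hab : Pool.Agent.Q57.TP.BPsef N δ →
      ∃ κ, Pool.Agent.Q57.TP.BKod N δ κ ∧ Pool.Agent.Q57.TP.BNum N δ κ) :
    CampanaPeternell N δ := by
  intro L hL
  have hR : Pool.Agent.Q35.CP.Rest N δ L := by
    obtain ⟨S, hS⟩ := hL
    refine ⟨S, fun M => ?_⟩
    obtain ⟨ω, h0, h1⟩ := hS M
    exact ⟨ω, h0, (isSection_eq _ _ _ _ _).1 h1⟩
  have hk : ∀ h, Pool.Agent.Q57.TP.BKod N δ h → KodairaGe N δ h := by
    rintro h ⟨m, hm, ω, hω, hD⟩
    exact ⟨m, hm, ω, fun b => (isSection_eq _ _ _ _ _).2 (hω b), hD⟩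
  obtain ⟨h1, h2⟩ := Pool.Agent.Q35.CP.cp hab hR
  refine ⟨fun h hh => hk h (h1 h hh), fun hp => ?_⟩
  obtain ⟨κ, h3, h4⟩ := h2 hp
  exact ⟨κ, hk κ h3, h4⟩

/-- **The Campana-Peternell inequality** on all log canonical pairs `(X, Δ)` which are given by a
boundary function `c`, for the abelian covers `X` of projective spaces which are branched along
hypersurfaces with normal crossings, and for the abelian covers of products of projective spaces
which are branched along smooth hypersurfaces of the factors. -/
theorem result :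
    (∀ (n R : ℕ) (d : Fin (n + 1) → ℕ) (F : Fin (n + 1) → MvPolynomial (Fin (n + 1)) ℂ)
      (m : Fin R → ℕ) (a : Fin R → Fin (n + 1) → ℕ) (K : Type) [Field K] [Algebra ℂ K]
      (x : Fin (n + 1) → K) (z : Fin R → K), IsCover d F m a x z →
      ∀ c : (Fin (n + 1) → ℕ) → ℚ, IsBoundary m a c →
        CampanaPeternell n fun P : Place ℂ K => c (multiplicities F d x P)) ∧
    ∀ (r R : ℕ) (n d : Fin r → ℕ) (F : ∀ i, MvPolynomial (Fin (n i + 1)) ℂ)
      (m : Fin R → ℕ) (a : Fin R → Fin r → ℕ) (K : Type) [Field K] [Algebra ℂ K]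
      (x : ∀ i, Fin (n i + 1) → K) (z : Fin R → K), Product.IsCover d F m a x z →
      ∀ c : (Fin r → ℕ) → ℚ, Product.IsBoundary m a c →
        CampanaPeternell (∑ i, n i) fun P : Place ℂ K => c (Product.multiplicities F d x P) := by
  constructor
  · intro n R d F m a K _ _ x z h c hc
    obtain ⟨e, rfl⟩ : ∃ e, n = e + 1 := ⟨n - 1, by have := h.dim; omega⟩
    apply cp_iff
    obtain ⟨h1, -, h3⟩ := Pool.Agent.Q57.TP.main_d (c := c)
      (δ := fun P : Place ℂ K => c (multiplicities F d x P)) h.ne_zero h.basis
      h.degree h.form h.crossings h.exponent h.root h.divides h.generates hc.zero hc.le_one hc.ray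
      hc.finite (fun _ => rfl)
    exact fun hp => ⟨_, h3 (h1.1 hp)⟩
  · intro r R n d F m a K _ _ x z h c hc
    apply cp_iff
    obtain ⟨h1, -, h3⟩ := Pool.Agent.Q57.TQ.main_d (c := c)
      (δ := fun P : Place ℂ K => c (Product.multiplicities F d x P)) h.factors h.dim rfl
      h.degree h.form h.smooth h.ne_zero h.basis h.exponent h.divides h.root h.generates hc.zero
      hc.le_one hc.ray hc.finite (fun _ => rfl) _
      (fun i => by
        classical
        exact Finset.mem_filter_univ i)
    exact fun hp => ⟨_, h3 (h1.1 hp)⟩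

end Pool.Agent.Results.MP_370cf3_ag.NormalCrossingCovers
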