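import Pool.Agent.Q47.TK.Dom3
import Pool.Agent.Q47.TK.Grw

/-!
# The Campana–Peternell conjecture for pairs on toric bundles over quotients of complex tori

Let `X = V / Γ` be the quotient of a complex torus of any dimension by any finite group (with or
without fixed points and reflections, projective or not), and let `Y → X` be a toric bundle: a
locally trivial bundle whose fibre is a smooth complete toric variety, twisted by arbitrary line
bundles `c_i` on `X` (for example the projective bundle of a direct sum of line bundles). Let `Δ` be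
any effective `ℚ`-divisor on `Y` such that the pair `(Y_v, Δ_v)` is log canonical for one fibre `Y_v`
of `Y → X` (no condition over the other points, and `Δ` need not be invariant under the torus).

Let `𝒜` be any line bundle on `Y` such that `(K_Y + Δ) - t 𝒜` is pseudo-effective for some real
`t > 0`. The theorem says that `κ(𝒜) ≤ ν(𝒜) ≤ κ(K_Y + Δ)`. (For `𝒜 = m (K_Y + Δ)` this contains
`κ(K_Y + Δ) = ν(K_Y + Δ)`.) More precisely, let `P` be the set of the real divisors `∑ β_i D_i`,
`β_i ≥ 0`, of the class of `K_Y + Δ` on the fibre such that the difference of `K_Y + Δ` and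
`∑ β_i D_i` is a nef class of `X`, and let `R` be the maximal rank of these nef classes. Then
`κ(K_Y + Δ) = dim P + R` (and `-∞` if `P` is empty), and for all line bundles `B` on `Y` one has
`h^0(k 𝒜 + B) ≤ C k ^ (dim P + R)` for all `k ≥ 1` (and `h^0(k 𝒜 + B) = 0` for large `k` if `P` is
empty).

`IsSmoothFan`, `LinEquiv`, `IsSection`, `IsLogPluricanonical` and `IsLogCanonical` are defined in
`Pool.Agent.Q47.TB.Defs`, `IsTorusQuotient` and `LineBundle` (given by a factor of automorphy `L.e`)
in `Pool.Agent.W594.SYZ.Defs2`, `IsChernForm` and `IsNefForm` in `Pool.Agent.W594.SYZ.TQDefs`,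
`IsRamification` in `Pool.Agent.TH735.AQ.MirDefs`, and `growth f = limsup log f(m) / log m`,
`grow f`, the largest `k` with `limsup f(m) / m^k > 0`, and the rank `rk H` in
`Pool.Agent.Q47.KN.Defs`.

The proof. Let `Q` be the semigroup of the pairs `(k, α)` such that `∑ α_i D_i`, `α_i ≥ 0`, is of the
class of `k m (K_Y + Δ)` on the fibre and the difference is a nef class of `X`. The class of
`K_Y + Δ` on the base is nonnegative in the directions fixed by the reflections, and on a root of a
reflection nonnegativity is an inequality with integral coefficients; hence `Q` is finitely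
generated, and all the line bundles of these differences are semiample (Newton polytopes and
abundance for torus quotients with arbitrary boundary). This gives the lower bound for
`K_Y + Δ`. If `α` is an exponent of a section of `k 𝒜 + B` and `∑ β_i D_i` is as above for
`(K_Y + Δ) - t 𝒜`, then `t α + k β` is at bounded distance of a point of `Q` of height `k`, and `t`
times the Chern form of the coefficient is at most the form of this point plus a constant. Counting
lattice points, and sections on the base by jets at the points of a net, gives the upper bound.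
-/

set_option autoImplicit false

universe u w

namespace Pool.Agent.Results.MP_370cf3_ag.ToricBundles

open Pool.Agent.W594.SYZ2 Pool.Agent.TH735.AQ Q47.TB Q47.KD MvPolynomial

variable {V : Type u} [NormedAddCommGroup V] [NormedSpace ℂ V] {Γ : Subgroup (V ≃ᵃ[ℂ] V)}
  {ι : Type w} [Fintype ι] {n : ℕ}

/-- The real class `(δ; H)` on the toric bundle `Y` (`δ` a class of divisors on the fibre, modulo
linear equivalence, `H` a class on the base `X`) is the sum of a combination with coefficients
`t_k ≥ 0` of classes of effective divisors and of the pullback `N` of a nef class of `X`: the line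
bundle `M_k` on `X` has the Chern form `HM_k` and `O_Y(d_k; M_k)` has a nonzero section. -/
def IsEff (r : ι → Fin n → ℤ) (c : ι → LineBundle Γ) (δ : ι → ℝ) (H : V → V → ℂ) : Prop :=
  ∃ (κ : Type) (_ : Fintype κ) (t : κ → ℝ) (d : κ → ι → ℤ) (M : κ → LineBundle Γ)
    (HM : κ → V → V → ℂ) (N : V → V → ℂ) (q : Fin n → ℝ),
    (∀ k, 0 ≤ t k) ∧ (∀ k, IsChernForm (M k) (HM k)) ∧
    (∀ k, ∃ G, IsSection r c (d k) (M k).e G ∧ ∃ v, G v ≠ 0) ∧ IsNefForm N ∧
    (∀ i, δ i = ∑ k, t k * d k i + ∑ l, q l * r i l) ∧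
    ∀ v w, H v w = ∑ k, t k * HM k v w + N v w

/-- The real class `(δ; H)` is pseudo-effective: a limit of sums of classes of effective divisors
and nef classes (all Kähler classes of `Y` are such sums). -/
def IsPseff (r : ι → Fin n → ℤ) (c : ι → LineBundle Γ) (δ : ι → ℝ) (H : V → V → ℂ) : Prop :=
  ∃ (δn : ℕ → ι → ℝ) (Hn : ℕ → V → V → ℂ), (∀ j, IsEff r c (δn j) (Hn j)) ∧
    (∀ i, Filter.Tendsto (fun j => δn j i) Filter.atTop (nhds (δ i))) ∧
    ∀ v w, Filter.Tendsto (fun j => Hn j v w) Filter.atTop (nhds (H v w))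

/-- The space of the global sections of the line bundle `O_Y(d; e)`. (They form a linear space.) -/
noncomputable def Sec (r : ι → Fin n → ℤ) (c : ι → LineBundle Γ) (d : ι → ℤ) (e : Γ → V → ℂ) :
    Submodule ℂ (V → MvPolynomial ι ℂ) :=
  Submodule.span ℂ {G | IsSection r c d e G}

/-- The dimension of the space of the global sections. -/
noncomputable def h0 (r : ι → Fin n → ℤ) (c : ι → LineBundle Γ) (d : ι → ℤ) (e : Γ → V → ℂ) : ℕ :=
  Module.finrank ℂ (Sec r c d e)

open Classical in
/-- The Kodaira dimension of `D = O_Y(d; L)`: `-∞` if `h^0(k D) = 0` for all `k ≥ 1`, and otherwise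
the largest `l` with `limsup h^0(k D) / k^l > 0`. -/
noncomputable def kod (r : ι → Fin n → ℤ) (c : ι → LineBundle Γ) (d : ι → ℤ) (L : LineBundle Γ) :
    EReal :=
  if ∀ k : ℕ, 1 ≤ k → h0 r c (fun i => k * d i) (fun γ v => L.e γ v ^ k) = 0 then ⊥
  else grow fun k => h0 r c (fun i => k * d i) (fun γ v => L.e γ v ^ k)

/-- The numerical dimension of `D = O_Y(d; L)`: the supremum of `limsup log h^0(k D + B) / log k`
over the line bundles `B = O_Y(b; M)`, where `M` has a Chern form. -/
noncomputable def num (r : ι → Fin n → ℤ) (c : ι → LineBundle Γ) (d : ι → ℤ) (L : LineBundle Γ) :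
    EReal :=
  ⨆ b : ι → ℤ, ⨆ M ∈ {M : LineBundle Γ | ∃ HM, IsChernForm M HM},
    growth fun k => h0 r c (fun i => k * d i + b i) (fun γ v => L.e γ v ^ k * M.e γ v)

/-- The polytope of the real divisors `∑ β_i D_i`, `β_i ≥ 0`, of the class of `d` on the fibre such
that the class `H - ∑ β_i Hc_i` on the base is nef. -/
def polytope (r : ι → Fin n → ℤ) (d : ι → ℤ) (H : V → V → ℂ) (Hc : ι → V → V → ℂ) :
    Set (ι → ℝ) :=
  {β | (∀ i, 0 ≤ β i) ∧ (∃ q : Fin n → ℝ, ∀ i, β i = d i + ∑ k, q k * r i k) ∧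
    IsNefForm fun v w => H v w - ∑ i, (β i : ℂ) * Hc i v w}

/-- Let `X = V / Γ` be a torus quotient, let `ρ` define the ramification divisor of `V → X`, let
`Y → X` be the toric bundle given by a smooth complete fan with the rays `r i` and by line bundles
`c i` on `X` with Chern forms `Hc i`, let `F` define the effective divisor `m Δ` on `Y`, and let
`O_Y(m (K_Y + Δ))` be the line bundle `D` on `Y` given by the class of `∑ (d_i - m) D_i` and by `L`.
Assume that the fibre `(Y_v, Δ_v)` is log canonical for some `v = v₀`. Let `𝒜 = O_Y(a; A)` be a line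
bundle on `Y` such that `D - t 𝒜` is pseudo-effective for some real `t > 0`. Let `P` be the polytope
of `D`.

(1) `κ(𝒜) ≤ ν(𝒜) ≤ κ(D)`.

(2) If `P` is empty, then `κ(D) = -∞`, and for each line bundle `B = O_Y(b; M)` on `Y` the line
bundle `k 𝒜 + B` has no nonzero sections for large `k`.

(3) Otherwise let `R` be the maximum of the ranks of the nef classes `H - ∑ β_i Hc_i` with `β ∈ P`.
Then `κ(D) = dim P + R`, and for each line bundle `B = O_Y(b; M)` on `Y` one has
`h^0(k 𝒜 + B) ≤ C k ^ (dim P + R)` for all `k ≥ 1`. -/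
theorem result [FiniteDimensional ℂ V] (Γ : Subgroup (V ≃ᵃ[ℂ] V)) (hΓ : IsTorusQuotient Γ)
    (ρ : V → ℂ) (hρ : IsRamification Γ ρ)
    (n : ℕ) (r : ι → Fin n → ℤ) (S : Set (Set ι)) (hS : IsSmoothFan r S)
    (c : ι → LineBundle Γ) (Hc : ι → V → V → ℂ) (hc : ∀ i, IsChernForm (c i) (Hc i))
    (m : ℕ) (hm : 1 ≤ m) (d : ι → ℤ) (F : V → MvPolynomial ι ℂ)
    (L : LineBundle Γ) (H : V → V → ℂ) (hL : IsChernForm L H)
    (hF : Q47.TB.IsLogPluricanonical r c m ρ d F L)
    (v₀ : V) (hlc : IsLogCanonical S m (F v₀))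
    (a : ι → ℤ) (A : LineBundle Γ) (HA : V → V → ℂ) (hA : IsChernForm A HA) (t : ℝ) (ht : 0 < t)
    (hpsef : IsPseff r c (fun i => (d i - m) - t * a i) fun v w => H v w - t * HA v w) :
    (kod r c a A ≤ num r c a A ∧ num r c a A ≤ kod r c (fun i => d i - m) L) ∧
    (polytope r (fun i => d i - m) H Hc = ∅ → kod r c (fun i => d i - m) L = ⊥ ∧
      ∀ (M : LineBundle Γ) (HM : V → V → ℂ), IsChernForm M HM → ∀ b : ι → ℤ,
        ∃ k₀ : ℕ, ∀ k : ℕ, k₀ ≤ k →
          h0 r c (fun i => k * a i + b i) (fun γ v => A.e γ v ^ k * M.e γ v) = 0) ∧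
    (polytope r (fun i => d i - m) H Hc ≠ ∅ → ∃ R : ℕ,
      IsGreatest {R | ∃ β ∈ polytope r (fun i => d i - m) H Hc,
        R = rk fun v w => H v w - ∑ i, (β i : ℂ) * Hc i v w} R ∧
      kod r c (fun i => d i - m) L =
        (Module.finrank ℝ (vectorSpan ℝ (polytope r (fun i => d i - m) H Hc)) + R : ℕ) ∧
      ∀ (M : LineBundle Γ) (HM : V → V → ℂ), IsChernForm M HM → ∀ b : ι → ℤ,
        ∃ C : ℕ, ∀ k : ℕ, 1 ≤ k →
          FiniteDimensional ℂ (Sec r c (fun i => k * a i + b i)
            (fun γ v => A.e γ v ^ k * M.e γ v)) ∧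
          h0 r c (fun i => k * a i + b i) (fun γ v => A.e γ v ^ k * M.e γ v) ≤
            C * k ^ (Module.finrank ℝ
              (vectorSpan ℝ (polytope r (fun i => d i - m) H Hc)) + R)) := by
  have hsec : ∀ (d : ι → ℤ) (e : Γ → V → ℂ), Sec r c d e = Q47.TK.secY r c d e := fun d e =>
    Submodule.span_eq (Q47.TK.secY r c d e)
  have hh0 : ∀ (d : ι → ℤ) (e : Γ → V → ℂ),
      h0 r c d e = Module.finrank ℂ (Q47.TK.secY r c d e) := fun d e => by rw [h0, hsec]
  have hone : ∀ (L : LineBundle Γ) (k : ℕ),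
      (fun (γ : Γ) (v : V) => L.e γ v ^ k * (Q47.KN.one Γ).e γ v)
      = fun γ v => L.e γ v ^ k := fun L k => by
    funext γ v
    exact mul_one _
  have hkod0 : ∀ (d : ι → ℤ) (L : LineBundle Γ) (k : ℕ), h0 r c (fun i => k * d i + 0)
      (fun γ v => L.e γ v ^ k * (Q47.KN.one Γ).e γ v)
      = h0 r c (fun i => k * d i) (fun γ v => L.e γ v ^ k) := fun d L k => by
    rw [hone L k]
    simp only [add_zero]
  -- the Kodaira dimension is at most the numerical dimension
  have hkn : kod r c a A ≤ num r c a A := by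
    rw [kod]
    split_ifs
    · exact bot_le
    · refine (Q47.TK.grow_le_growth _).trans ?_
      have h3 : (fun k : ℕ => h0 r c (fun i => k * a i) (fun γ v => A.e γ v ^ k))
          = fun k : ℕ => h0 r c (fun i => k * a i + (fun _ => 0 : ι → ℤ) i)
            (fun γ v => A.e γ v ^ k * (Q47.KN.one Γ).e γ v) := by
        funext k
        exact (hkod0 a A k).symm
      rw [h3]
      refine le_trans ?_ (le_iSup (fun b : ι → ℤ => ⨆ M ∈ {M : LineBundle Γ |
        ∃ HM, IsChernForm M HM}, growth fun k => h0 r c (fun i => k * a i + b i)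
          (fun γ v => A.e γ v ^ k * M.e γ v)) (fun _ => 0 : ι → ℤ))
      exact le_iSup₂ (f := fun (M : LineBundle Γ) (_ : M ∈ {M : LineBundle Γ |
        ∃ HM, IsChernForm M HM}) => growth fun k => h0 r c (fun i => k * a i + 0)
          (fun γ v => A.e γ v ^ k * M.e γ v)) (Q47.KN.one Γ) ⟨_, Q47.KN.chern_one⟩
  obtain ⟨β, q, h0', h1', h2'⟩ := exists_real hΓ hS hc hpsef
  obtain ⟨hdom1, hdom2⟩ := Q47.TK.growth_dom (a := a) hΓ hρ hS hc hL hF (F v₀).support
    (fun _ hα => ⟨v₀, mem_support_iff.1 hα⟩) (weights_of_lc hm hlc) hA ht h0'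
    (fun i => by rw [h1' i]; push_cast; ring) h2'
  rcases Q47.TK.growth_final hΓ hρ hS hc hL hF (F v₀).support
    (fun _ hα => ⟨v₀, mem_support_iff.1 hα⟩) (weights_of_lc hm hlc) with
      ⟨hP, h1, -⟩ | ⟨β₀, hβ₀, hmax, ⟨C, hC, hfreq⟩, hup⟩
  · have hP' : polytope r (fun i => d i - m) H Hc = ∅ := hP
    have hzero : ∀ k : ℕ, 1 ≤ k →
        h0 r c (fun i => k * (d i - m)) (fun γ v => L.e γ v ^ k) = 0 := by
      intro k hk
      rw [hh0]
      have h3 := h1 k hk
      change Module.finrank ℂ (Q47.TK.secY r c (fun i => k * (d i - m)) (L.pow k).e) = 0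
      rw [h3, finrank_bot]
    have hbot : kod r c (fun i => d i - m) L = ⊥ := by rw [kod, if_pos hzero]
    have hlarge : ∀ (M : LineBundle Γ) (HM : V → V → ℂ), IsChernForm M HM → ∀ b : ι → ℤ,
        ∃ k₀ : ℕ, ∀ k : ℕ, k₀ ≤ k → h0 r c (fun i => k * a i + b i)
          (fun γ v => A.e γ v ^ k * M.e γ v) = 0 := by
      intro M HM hM b
      obtain ⟨k₀, hk₀⟩ := hdom1 hP M HM hM b
      refine ⟨k₀, fun k hk => ?_⟩
      rw [hh0]
      have h3 := hk₀ k hk
      change Module.finrank ℂ (Q47.TK.secY r c (fun i => k * a i + b i)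
        (tensor (A.pow k) M).e) = 0
      rw [h3, finrank_bot]
    refine ⟨⟨hkn, ?_⟩, fun _ => ⟨hbot, hlarge⟩, fun h => absurd hP' h⟩
    rw [hbot]
    refine iSup_le fun b => iSup₂_le fun M hM => ?_
    obtain ⟨HM, hM⟩ := hM
    obtain ⟨k₀, hk₀⟩ := hlarge M HM hM b
    refine (Q47.KN.growth_bot ?_).le
    filter_upwards [Filter.eventually_ge_atTop k₀] with k hk
    exact hk₀ k hk
  · have hP' : polytope r (fun i => d i - m) H Hc ≠ ∅ := by
      intro h
      have : β₀ ∈ polytope r (fun i => d i - m) H Hc := hβ₀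
      rw [h] at this
      exact this
    set R := rk fun v w => H v w - ∑ i, (β₀ i : ℂ) * Hc i v w with hR
    set e := Module.finrank ℝ (vectorSpan ℝ (polytope r (fun i => d i - m) H Hc)) with he
    have hlow : ∃ᶠ k : ℕ in Filter.atTop, C * (k : ℝ) ^ (e + R) ≤
        h0 r c (fun i => k * (d i - m)) (fun γ v => L.e γ v ^ k) := by
      refine hfreq.mono fun k hk => ?_
      rw [hh0]
      exact hk
    have hne : ¬ ∀ k : ℕ, 1 ≤ k →
        h0 r c (fun i => k * (d i - m)) (fun γ v => L.e γ v ^ k) = 0 := by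
      intro h
      obtain ⟨k, hk, hk1⟩ := (hlow.and_eventually (Filter.eventually_ge_atTop 1)).exists
      rw [h k hk1] at hk
      have h3 : (0 : ℝ) < C * (k : ℝ) ^ (e + R) := by
        have : (0 : ℝ) < k := by exact_mod_cast hk1
        positivity
      simp only [Nat.cast_zero] at hk
      linarith
    have hkod : kod r c (fun i => d i - m) L = (e + R : ℕ) := by
      rw [kod, if_neg hne]
      obtain ⟨D, hD⟩ := hup (Q47.KN.one Γ) _ Q47.KN.chern_one fun _ => 0
      refine Q47.KN.grow_eq (D := D) (fun k hk => ?_) hC hlow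
      have h3 := (hD k hk).2
      rw [← hkod0, hh0]
      exact h3
    have hup' : ∀ (M : LineBundle Γ) (HM : V → V → ℂ), IsChernForm M HM → ∀ b : ι → ℤ,
        ∃ C : ℕ, ∀ k : ℕ, 1 ≤ k →
          FiniteDimensional ℂ (Sec r c (fun i => k * a i + b i)
            (fun γ v => A.e γ v ^ k * M.e γ v)) ∧
          h0 r c (fun i => k * a i + b i) (fun γ v => A.e γ v ^ k * M.e γ v) ≤
            C * k ^ (e + R) := by
      intro M HM hM b
      obtain ⟨D, hD⟩ := hdom2 β₀ hβ₀ hmax M HM hM b
      refine ⟨D, fun k hk => ?_⟩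
      rw [hh0, hsec]
      exact hD k hk
    refine ⟨⟨hkn, ?_⟩, fun h => absurd h hP', fun _ => ⟨R, ⟨⟨β₀, hβ₀, rfl⟩, ?_⟩, hkod, hup'⟩⟩
    · rw [hkod]
      refine iSup_le fun b => iSup₂_le fun M hM => ?_
      obtain ⟨HM, hM⟩ := hM
      obtain ⟨D, hD⟩ := hup' M HM hM b
      exact Q47.KN.growth_le fun k hk => (hD k hk).2
    · rintro _ ⟨β, hβ, rfl⟩
      exact hmax β hβ

end Pool.Agent.Results.MP_370cf3_ag.ToricBundles
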